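import Pool.Agent.L5helper3.IsoGame.Univ

/-!
# The isomorphism game algebra and homomorphisms to the complex numbers
-/

set_option autoImplicit false
set_option linter.all false

noncomputable section

namespace Pool.Agent.L5helper3.IsoGame

open scoped ENNReal
open FreeAlgebra (lift)

/-- the pairs `(g, g')` and `(h, h')` stand in the same relation: equal, adjacent, or distinct and
not adjacent -/
def SameRel {V W : Type} (G : SimpleGraph V) (H : SimpleGraph W) (g g' : V) (h h' : W) : Prop :=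
  (g = g' ↔ h = h') ∧ (G.Adj g g' ↔ H.Adj h h')

/-- the relations of the isomorphism game algebra -/
structure IsGameMatrix {V W : Type} [Fintype V] [Fintype W] (G : SimpleGraph V)
    (H : SimpleGraph W) {A : Type} [CStarAlgebra A] (p : V → W → A) : Prop where
  idem : ∀ g h, p g h * p g h = p g h
  star : ∀ g h, star (p g h) = p g h
  row : ∀ g, ∑ h, p g h = 1
  col : ∀ h, ∑ g, p g h = 1
  orth : ∀ g g' h h', ¬ SameRel G H g g' h h' → p g h * p g' h' = 0

/-- the isomorphism game algebra: the universal one -/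
structure IsGameAlgebra {V W : Type} [Fintype V] [Fintype W] (G : SimpleGraph V)
    (H : SimpleGraph W) (A : Type) [CStarAlgebra A] (p : V → W → A) : Prop where
  rel : IsGameMatrix G H p
  univ : ∀ (B : Type) [CStarAlgebra B] (q : V → W → B), IsGameMatrix G H q →
    ∃! φ : A →⋆ₐ[ℂ] B, ∀ g h, φ (p g h) = q g h

/-- the full group C*-algebra -/
structure IsFullGroupCStar (Γ : Type) [Group Γ] (C : Type) [CStarAlgebra C]
    (u : Γ →* unitary C) : Prop where
  univ : ∀ (B : Type) [CStarAlgebra B] (v : Γ →* unitary B),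
    ∃! φ : C →⋆ₐ[ℂ] B, ∀ g, φ (u g) = v g

lemma norm_proj_le {B : Type} [CStarAlgebra B] {p : B} (h1 : p * p = p) (h2 : star p = p) :
    ‖p‖ ≤ 1 := by
  have h3 : ‖p‖ * ‖p‖ = ‖p‖ := by
    have := CStarRing.norm_star_mul_self (x := p)
    rw [h2, h1] at this
    exact this.symm
  nlinarith [norm_nonneg p, sq_nonneg (‖p‖ - 1)]

lemma norm_unitary_le {B : Type} [CStarAlgebra B] (w : unitary B) : ‖(w : B)‖ ≤ 1 := by
  rcases subsingleton_or_nontrivial B with h | h
  · rw [Subsingleton.elim (w : B) 0, norm_zero]; exact zero_le_one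
  · exact (CStarRing.norm_coe_unitary w).le

section exist

variable {V W : Type} [Fintype V] [Fintype W] (G : SimpleGraph V) (H : SimpleGraph W)

/-- the relations as polynomials -/
def gameRel : Set (FreeAlgebra ℂ (V × W)) :=
  {x | ∃ g h, x = FreeAlgebra.ι ℂ (g, h) * FreeAlgebra.ι ℂ (g, h) - FreeAlgebra.ι ℂ (g, h)} ∪
  {x | ∃ g, x = ∑ h, FreeAlgebra.ι ℂ (g, h) - 1} ∪
  {x | ∃ h, x = ∑ g, FreeAlgebra.ι ℂ (g, h) - 1} ∪
  {x | ∃ g g' h h', ¬ SameRel G H g g' h h' ∧
    x = FreeAlgebra.ι ℂ (g, h) * FreeAlgebra.ι ℂ (g', h')}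

theorem rep_iff {B : Type} [CStarAlgebra B] (q : V × W → B) :
    Rep id (gameRel G H) B q ↔ IsGameMatrix G H (fun g h => q (g, h)) := by
  constructor
  · intro hq
    refine ⟨fun g h => ?_, fun g h => hq.star _, fun g => ?_, fun h => ?_,
      fun g g' h h' hr => ?_⟩
    · have := hq.rel _ (Or.inl (Or.inl (Or.inl ⟨g, h, rfl⟩)))
      rwa [map_sub, map_mul, FreeAlgebra.lift_ι_apply, sub_eq_zero] at this
    · have := hq.rel _ (Or.inl (Or.inl (Or.inr ⟨g, rfl⟩)))
      rw [map_sub, map_sum, map_one, sub_eq_zero] at this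
      simpa only [FreeAlgebra.lift_ι_apply] using this
    · have := hq.rel _ (Or.inl (Or.inr ⟨h, rfl⟩))
      rw [map_sub, map_sum, map_one, sub_eq_zero] at this
      simpa only [FreeAlgebra.lift_ι_apply] using this
    · have := hq.rel _ (Or.inr ⟨g, g', h, h', hr, rfl⟩)
      rwa [map_mul, FreeAlgebra.lift_ι_apply, FreeAlgebra.lift_ι_apply] at this
  · intro hq
    refine ⟨fun i => hq.star i.1 i.2, ?_⟩
    rintro x (((⟨g, h, rfl⟩ | ⟨g, rfl⟩) | ⟨h, rfl⟩) | ⟨g, g', h, h', hr, rfl⟩)
    · rw [map_sub, map_mul, FreeAlgebra.lift_ι_apply, sub_eq_zero]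
      exact hq.idem g h
    · rw [map_sub, map_sum, map_one, sub_eq_zero]
      simp only [FreeAlgebra.lift_ι_apply]
      exact hq.row g
    · rw [map_sub, map_sum, map_one, sub_eq_zero]
      simp only [FreeAlgebra.lift_ι_apply]
      exact hq.col h
    · rw [map_mul, FreeAlgebra.lift_ι_apply, FreeAlgebra.lift_ι_apply]
      exact hq.orth g g' h h' hr

/-- existence of the isomorphism game algebra -/
theorem exists_gameAlgebra {B₀ : Type} [CStarAlgebra B₀] [Nontrivial B₀] (q₀ : V → W → B₀)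
    (hq₀ : IsGameMatrix G H q₀) :
    ∃ (A : Type) (_ : CStarAlgebra A) (p : V → W → A), IsGameAlgebra G H A p := by
  obtain ⟨A, iA, p, hp, hu⟩ := exists_universal (σ := (id : V × W → V × W)) (rel := gameRel G H) 1
    (fun B _ v hv i => norm_proj_le (((rep_iff G H v).1 hv).idem i.1 i.2) (hv.star i)) B₀
    (fun i => q₀ i.1 i.2) ((rep_iff G H _).2 hq₀)
  refine ⟨A, iA, fun g h => p (g, h), (rep_iff G H p).1 hp, fun B _ q hq => ?_⟩
  obtain ⟨φ, h1, h2⟩ := hu B (fun i => q i.1 i.2) ((rep_iff G H _).2 hq)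
  exact ⟨φ, fun g h => h1 (g, h), fun ψ hψ => h2 ψ fun i => hψ i.1 i.2⟩

end exist

section group

variable (Γ : Type) [Group Γ]

/-- the relations of a group as polynomials -/
def grpRel : Set (FreeAlgebra ℂ Γ) :=
  {x | ∃ g h : Γ, x = FreeAlgebra.ι ℂ g * FreeAlgebra.ι ℂ h - FreeAlgebra.ι ℂ (g * h)} ∪
  {FreeAlgebra.ι ℂ 1 - 1}

variable {Γ}

/-- the unitary representation -/
def toUnitary {B : Type} [CStarAlgebra B] {v : Γ → B}
    (hv : Rep (fun g : Γ => g⁻¹) (grpRel Γ) B v) : Γ →* unitary B where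
  toFun g := ⟨v g, by
    have h1 : v 1 = 1 := by
      have := hv.rel _ (Or.inr rfl)
      rwa [map_sub, map_one, FreeAlgebra.lift_ι_apply, sub_eq_zero] at this
    have h2 : ∀ g h, v g * v h = v (g * h) := by
      intro g h
      have := hv.rel _ (Or.inl ⟨g, h, rfl⟩)
      rwa [map_sub, map_mul, FreeAlgebra.lift_ι_apply, FreeAlgebra.lift_ι_apply,
        FreeAlgebra.lift_ι_apply, sub_eq_zero] at this
    rw [Unitary.mem_iff, hv.star, h2, h2, inv_mul_cancel, mul_inv_cancel, h1]
    exact ⟨rfl, rfl⟩⟩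
  map_one' := by
    apply Subtype.ext
    have := hv.rel _ (Or.inr rfl)
    rwa [map_sub, map_one, FreeAlgebra.lift_ι_apply, sub_eq_zero] at this
  map_mul' g h := by
    apply Subtype.ext
    have := hv.rel _ (Or.inl ⟨g, h, rfl⟩)
    rw [map_sub, map_mul, FreeAlgebra.lift_ι_apply, FreeAlgebra.lift_ι_apply,
      FreeAlgebra.lift_ι_apply, sub_eq_zero] at this
    exact this.symm

lemma toUnitary_coe {B : Type} [CStarAlgebra B] {v : Γ → B}
    (hv : Rep (fun g : Γ => g⁻¹) (grpRel Γ) B v) (g : Γ) : (toUnitary hv g : B) = v g := rfl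

lemma rep_of_unitary {B : Type} [CStarAlgebra B] (v : Γ →* unitary B) :
    Rep (fun g : Γ => g⁻¹) (grpRel Γ) B (fun g => (v g : B)) := by
  refine ⟨fun g => ?_, ?_⟩
  · rw [← Unitary.coe_star, Unitary.star_eq_inv, ← map_inv]
  · rintro x (⟨g, h, rfl⟩ | rfl)
    · rw [map_sub, map_mul, FreeAlgebra.lift_ι_apply, FreeAlgebra.lift_ι_apply,
        FreeAlgebra.lift_ι_apply, map_mul, Submonoid.coe_mul, sub_self]
    · rw [map_sub, map_one, FreeAlgebra.lift_ι_apply, map_one, Submonoid.coe_one, sub_self]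

/-- existence of the full group C*-algebra -/
theorem exists_fullGroup (Γ : Type) [Group Γ] :
    ∃ (C : Type) (_ : CStarAlgebra C) (u : Γ →* unitary C), IsFullGroupCStar Γ C u := by
  obtain ⟨A, iA, p, hp, hu⟩ := exists_universal (σ := fun g : Γ => g⁻¹) (rel := grpRel Γ) 1
    (fun B _ v hv i => norm_unitary_le (toUnitary hv i)) ℂ _ (rep_of_unitary (1 : Γ →* unitary ℂ))
  refine ⟨A, iA, toUnitary hp, ⟨fun B _ v => ?_⟩⟩
  exact hu B _ (rep_of_unitary v)

end group

/-- the full group C*-algebra has a character -/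
theorem exists_character {Γ : Type} [Group Γ] {C : Type} [CStarAlgebra C] {u : Γ →* unitary C}
    (h : IsFullGroupCStar Γ C u) : Nonempty (C →⋆ₐ[ℂ] ℂ) := by
  obtain ⟨φ, -, -⟩ := h.univ ℂ 1
  exact ⟨φ⟩

/-- a character of the game algebra is an isomorphism -/
theorem iso_of_character {V W : Type} [Fintype V] [Fintype W] (G : SimpleGraph V)
    (H : SimpleGraph W) (q : V → W → ℂ) (hq : IsGameMatrix G H q) : Nonempty (G ≃g H) := by
  classical
  have h01 : ∀ g h, q g h = 0 ∨ q g h = 1 := by
    intro g h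
    have := hq.idem g h
    have h1 : q g h * (q g h - 1) = 0 := by rw [mul_sub, this, mul_one, sub_self]
    rcases mul_eq_zero.1 h1 with h2 | h2
    · exact Or.inl h2
    · exact Or.inr (sub_eq_zero.1 h2)
  have huniq : ∀ g h h', q g h = 1 → q g h' = 1 → h = h' := by
    intro g h h' h1 h2
    by_contra hne
    have := hq.orth g g h h' (fun hs => hne (hs.1.1 rfl))
    rw [h1, h2, mul_one] at this
    exact one_ne_zero this
  have huniq' : ∀ g g' h, q g h = 1 → q g' h = 1 → g = g' := by
    intro g g' h h1 h2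
    by_contra hne
    have := hq.orth g g' h h (fun hs => hne (hs.1.2 rfl))
    rw [h1, h2, mul_one] at this
    exact one_ne_zero this
  have hex : ∀ g, ∃ h, q g h = 1 := by
    intro g
    by_contra hcon
    push Not at hcon
    have h1 := hq.row g
    rw [Finset.sum_eq_zero fun h _ => (h01 g h).resolve_right (hcon h)] at h1
    exact zero_ne_one h1
  have hex' : ∀ h, ∃ g, q g h = 1 := by
    intro h
    by_contra hcon
    push Not at hcon
    have h1 := hq.col h
    rw [Finset.sum_eq_zero fun g _ => (h01 g h).resolve_right (hcon g)] at h1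
    exact zero_ne_one h1
  choose f hf using hex
  choose f' hf' using hex'
  have hrel : ∀ g g', SameRel G H g g' (f g) (f g') := by
    intro g g'
    by_contra hcon
    have := hq.orth g g' (f g) (f g') hcon
    rw [hf, hf, mul_one] at this
    exact one_ne_zero this
  refine ⟨⟨⟨f, f', fun g => huniq' _ _ (f g) (hf' _) (hf g), fun h =>
    huniq (f' h) _ _ (hf _) (hf' h)⟩, ?_⟩⟩
  intro g g'
  exact (hrel g g').2.symm

/-- an isomorphism gives a character -/
theorem character_of_iso {V W : Type} [Fintype V] [Fintype W] (G : SimpleGraph V)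
    (H : SimpleGraph W) (f : G ≃g H) (B : Type) [CStarAlgebra B] :
    ∃ q : V → W → B, IsGameMatrix G H q := by
  classical
  refine ⟨fun g h => if f g = h then 1 else 0, ?_, ?_, ?_, ?_, ?_⟩
  · intro g h
    split_ifs <;> simp
  · intro g h
    split_ifs <;> simp
  · intro g
    simp
  · intro h
    rw [Finset.sum_eq_single (f.symm h)]
    · simp
    · intro g _ hg
      rw [if_neg]
      intro h1
      apply hg
      rw [← h1]
      simp
    · intro h1
      exact absurd (Finset.mem_univ _) h1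
  · intro g g' h h' hr
    by_cases h1 : f g = h
    · by_cases h2 : f g' = h'
      · exfalso
        apply hr
        subst h1 h2
        exact ⟨f.injective.eq_iff.symm, f.map_adj_iff.symm⟩
      · simp [h2]
    · simp [h1]

/-- **Homomorphisms into algebras with a character.** -/
theorem hom_iff {V W : Type} [Fintype V] [Fintype W] (G : SimpleGraph V)
    (H : SimpleGraph W) {A : Type} [CStarAlgebra A] {p : V → W → A} (hA : IsGameAlgebra G H A p)
    {C : Type} [CStarAlgebra C] (χ : C →⋆ₐ[ℂ] ℂ) :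
    Nonempty (A →⋆ₐ[ℂ] C) ↔ Nonempty (G ≃g H) := by
  constructor
  · rintro ⟨ψ⟩
    refine iso_of_character G H (fun g h => χ (ψ (p g h))) ⟨?_, ?_, ?_, ?_, ?_⟩
    · intro g h
      rw [← map_mul, ← map_mul, hA.rel.idem]
    · intro g h
      rw [← map_star, ← map_star, hA.rel.star]
    · intro g
      rw [← map_sum, ← map_sum, hA.rel.row, map_one, map_one]
    · intro h
      rw [← map_sum, ← map_sum, hA.rel.col, map_one, map_one]
    · intro g g' h h' hr
      rw [← map_mul, ← map_mul, hA.rel.orth g g' h h' hr, map_zero, map_zero]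
  · rintro ⟨f⟩
    obtain ⟨q, hq⟩ := character_of_iso G H f C
    obtain ⟨φ, -, -⟩ := hA.univ C q hq
    exact ⟨φ⟩

end Pool.Agent.L5helper3.IsoGame
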