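import Pool.Agent.L5helper3.IsoGame.Square

/-!
# The operator solution of the magic square (Mermin, Peres)
-/

set_option autoImplicit false
set_option linter.all false

noncomputable section

namespace Pool.Agent.L5helper3.IsoGame

open scoped Matrix.Norms.L2Operator

/-- the matrices with integer entries -/
def zm : Fin 3 → Fin 3 → Matrix (Fin 4) (Fin 4) ℤ :=
  ![![!![0, 0, 1, 0; 0, 0, 0, 1; 1, 0, 0, 0; 0, 1, 0, 0],
      !![0, 1, 0, 0; 1, 0, 0, 0; 0, 0, 0, 1; 0, 0, 1, 0],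
      !![0, 0, 0, 1; 0, 0, 1, 0; 0, 1, 0, 0; 1, 0, 0, 0]],
    ![!![1, 0, 0, 0; 0, -1, 0, 0; 0, 0, 1, 0; 0, 0, 0, -1],
      !![1, 0, 0, 0; 0, 1, 0, 0; 0, 0, -1, 0; 0, 0, 0, -1],
      !![1, 0, 0, 0; 0, -1, 0, 0; 0, 0, -1, 0; 0, 0, 0, 1]],
    ![!![0, 0, 1, 0; 0, 0, 0, -1; 1, 0, 0, 0; 0, -1, 0, 0],
      !![0, 1, 0, 0; 1, 0, 0, 0; 0, 0, 0, -1; 0, 0, -1, 0],
      !![0, 0, 0, -1; 0, 0, 1, 0; 0, 1, 0, 0; -1, 0, 0, 0]]]

theorem zm_sym : ∀ i j, (zm i j).transpose = zm i j := by decide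

theorem zm_sq : ∀ i j, zm i j * zm i j = 1 := by decide

theorem zm_row : ∀ i j j', zm i j * zm i j' = zm i j' * zm i j := by decide

theorem zm_col : ∀ i i' j, zm i j * zm i' j = zm i' j * zm i j := by decide

theorem zm_row_prod : ∀ i, zm i 0 * zm i 1 * zm i 2 = 1 := by decide

theorem zm_col_prod : ∀ j, zm 0 j * zm 1 j * zm 2 j = if j = 2 then -1 else 1 := by decide

/-- the ring homomorphism to the complex matrices -/
def toC : Matrix (Fin 4) (Fin 4) ℤ →+* Matrix (Fin 4) (Fin 4) ℂ :=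
  (Int.castRingHom ℂ).mapMatrix

theorem toC_star (x : Matrix (Fin 4) (Fin 4) ℤ) (hx : x.transpose = x) :
    star (toC x) = toC x := by
  conv_rhs => rw [← hx]
  ext i j
  rw [Matrix.star_apply]
  change star ((x j i : ℤ) : ℂ) = ((x j i : ℤ) : ℂ)
  simp

theorem magic_mermin : Magic (fun i j => toC (zm i j)) where
  star i j := toC_star _ (zm_sym i j)
  sq i j := by rw [← map_mul, zm_sq, map_one]
  row_comm i j j' := by rw [← map_mul, zm_row, map_mul]
  col_comm i i' j := by rw [← map_mul, zm_col, map_mul]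
  row_prod i := by rw [← map_mul, ← map_mul, zm_row_prod, map_one]
  col_prod j := by
    rw [← map_mul, ← map_mul, zm_col_prod]
    split_ifs
    · rw [map_neg, map_one]
    · rw [map_one]

theorem exists_matrix4 : ∃ q : Vx rhs → Vx (fun _ => (0 : ZMod 2)) → Matrix (Fin 4) (Fin 4) ℂ,
    IsGameMatrix (sqGraph rhs) (sqGraph fun _ => 0) q := ⟨_, magic_matrix magic_mermin⟩

end Pool.Agent.L5helper3.IsoGame
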