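import Pool.Agent.L5helper3.IsoGame.Game

/-!
# The graphs of the magic square
-/

set_option autoImplicit false
set_option linter.all false

noncomputable section

namespace Pool.Agent.L5helper3.IsoGame

/-- the equations: the rows `(false, i)` and the columns `(true, j)` of a `3 × 3` square -/
abbrev Eqn : Type := Bool × Fin 3

/-- the variables of an equation (cells of the square) -/
def cell (k : Eqn) (s : Fin 3) : Fin 3 × Fin 3 := if k.1 then (s, k.2) else (k.2, s)

/-- the vertices: an equation with an assignment of values to its variables with given sum -/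
abbrev Vx (c : Eqn → ZMod 2) : Type :=
  {v : Eqn × (Fin 3 → ZMod 2) // v.2 0 + v.2 1 + v.2 2 = c v.1}

theorem cell_inj (k : Eqn) (s s' : Fin 3) (h : cell k s = cell k s') : s = s' := by
  obtain ⟨b, i⟩ := k
  cases b <;> simp [cell] at h <;> exact h

/-- the graph: two partial assignments are adjacent if they are inconsistent -/
def sqGraph (c : Eqn → ZMod 2) : SimpleGraph (Vx c) where
  Adj v w := ∃ s t, cell v.1.1 s = cell w.1.1 t ∧ v.1.2 s ≠ w.1.2 t
  symm := ⟨fun v w ⟨s, t, h1, h2⟩ => ⟨t, s, h1.symm, h2.symm⟩⟩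
  loopless := ⟨by
    rintro v ⟨s, t, h1, h2⟩
    exact h2 (by rw [cell_inj _ s t h1])⟩

/-- the right hand side: all sums are zero, except for the last column -/
def rhs (k : Eqn) : ZMod 2 := if k = (true, 2) then 1 else 0

theorem not_iso : IsEmpty (sqGraph rhs ≃g sqGraph fun _ => 0) := by
  classical
  constructor
  intro f
  let h : Eqn → Vx (fun _ => (0 : ZMod 2)) := fun k => ⟨(k, 0), by simp⟩
  have hh : ∀ k k', ¬ (sqGraph fun _ => 0).Adj (h k) (h k') := by
    rintro k k' ⟨s, t, -, h2⟩
    exact h2 rfl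
  let g : Eqn → Vx rhs := fun k => f.symm (h k)
  have hg : ∀ k k', ¬ (sqGraph rhs).Adj (g k) (g k') := by
    intro k k' hadj
    exact hh k k' (f.symm.map_adj_iff.1 hadj)
  have hcons : ∀ k k' s t, cell (g k).1.1 s = cell (g k').1.1 t → (g k).1.2 s = (g k').1.2 t := by
    intro k k' s t h1
    by_contra h2
    exact hg k k' ⟨s, t, h1, h2⟩
  have hinj : Function.Injective fun k => (g k).1.1 := by
    intro k k' hk
    have h1 : g k = g k' := by
      apply Subtype.ext
      refine Prod.ext hk ?_
      funext s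
      exact hcons k k' s s (by rw [show (g k).1.1 = (g k').1.1 from hk])
    have h2 : h k = h k' := f.symm.injective h1
    exact congrArg (fun v : Vx (fun _ => (0 : ZMod 2)) => v.1.1) h2
  have hsurj : Function.Surjective fun k => (g k).1.1 := Finite.surjective_of_injective hinj
  choose r hr using hsurj
  -- the values
  have h1 : ∀ i j, (g (r (false, i))).1.2 j = (g (r (true, j))).1.2 i := by
    intro i j
    apply hcons
    have e1 : (g (r (false, i))).1.1 = (false, i) := hr _
    have e2 : (g (r (true, j))).1.1 = (true, j) := hr _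
    rw [e1, e2]
    rfl
  have h2 : ∀ k, (g (r k)).1.2 0 + (g (r k)).1.2 1 + (g (r k)).1.2 2 = rhs k := by
    intro k
    have := (g (r k)).2
    rwa [show (g (r k)).1.1 = k from hr k] at this
  have e0 := h2 (false, 0)
  have e1 := h2 (false, 1)
  have e2 := h2 (false, 2)
  have e3 := h2 (true, 0)
  have e4 := h2 (true, 1)
  have e5 := h2 (true, 2)
  simp only [h1] at e0 e1 e2
  have r0 : rhs (false, 0) = 0 := by decide
  have r1 : rhs (false, 1) = 0 := by decide
  have r2 : rhs (false, 2) = 0 := by decide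
  have r3 : rhs (true, 0) = 0 := by decide
  have r4 : rhs (true, 1) = 0 := by decide
  have r5 : rhs (true, 2) = 1 := by decide
  rw [r0] at e0
  rw [r1] at e1
  rw [r2] at e2
  rw [r3] at e3
  rw [r4] at e4
  rw [r5] at e5
  have : (1 : ZMod 2) = 0 := by linear_combination e0 + e1 + e2 - e3 - e4 - e5
  exact absurd this (by decide)

/-! ### the operators -/

/-- the sign -/
def sgn (t : ZMod 2) : ℂ := if t = 0 then 1 else -1

theorem zmod2 : ∀ t : ZMod 2, t = 0 ∨ t = 1 := by decide

theorem sgn_zero : sgn 0 = 1 := by simp [sgn]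

theorem sgn_one : sgn 1 = -1 := by simp [sgn]

theorem sgn_mul (s t : ZMod 2) : sgn s * sgn t = sgn (s + t) := by
  rcases zmod2 s with rfl | rfl <;> rcases zmod2 t with rfl | rfl
  · rw [add_zero, sgn_zero, one_mul]
  · rw [zero_add, sgn_zero, one_mul]
  · rw [add_zero, sgn_zero, mul_one]
  · rw [show (1 : ZMod 2) + 1 = 0 by decide, sgn_zero, sgn_one]
    norm_num

theorem sgn_sq (s : ZMod 2) : sgn s * sgn s = 1 := by
  rcases zmod2 s with rfl | rfl
  · rw [sgn_zero, one_mul]
  · rw [sgn_one]
    norm_num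

theorem sgn_star (s : ZMod 2) : star (sgn s) = sgn s := by
  rcases zmod2 s with rfl | rfl
  · rw [sgn_zero, star_one]
  · rw [sgn_one, star_neg, star_one]

theorem sgn_ne {s t : ZMod 2} (h : s ≠ t) : sgn s * sgn t = -1 := by
  rcases zmod2 s with rfl | rfl <;> rcases zmod2 t with rfl | rfl
  · exact absurd rfl h
  · rw [sgn_zero, sgn_one, one_mul]
  · rw [sgn_zero, sgn_one, mul_one]
  · exact absurd rfl h

theorem add_move {x y z w : ZMod 2} (h : x + y = z + w) : x = z ↔ y = w := by
  revert h
  revert x y z w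
  decide

variable {B : Type} [CStarAlgebra B]

/-- the spectral projection of an involution -/
def pr (t : ZMod 2) (A : B) : B := (1 / 2 : ℂ) • (1 + sgn t • A)

theorem pr_star {A : B} (h : star A = A) (t : ZMod 2) : star (pr t A) = pr t A := by
  rw [pr, star_smul, star_add, star_one, star_smul, sgn_star, h]
  congr 1
  simp

theorem mul_pr {A : B} (h : A * A = 1) (t : ZMod 2) : A * pr t A = sgn t • pr t A := by
  rw [pr, mul_smul_comm, mul_add, mul_one, mul_smul_comm, h, smul_comm (sgn t) (1 / 2 : ℂ),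
    smul_add (sgn t), smul_smul, sgn_sq, one_smul, add_comm]

theorem pr_mul {A : B} (h : A * A = 1) (s t : ZMod 2) :
    pr s A * pr t A = if s = t then pr t A else 0 := by
  have h1 : pr s A * pr t A = (1 / 2 : ℂ) • ((1 + sgn s * sgn t) • pr t A) := by
    conv_lhs => rw [pr]
    rw [smul_mul_assoc, add_mul, one_mul, smul_mul_assoc, mul_pr h, smul_smul, add_smul, one_smul]
  rw [h1]
  split_ifs with hst
  · rw [hst, sgn_sq, smul_smul]
    norm_num
  · rw [sgn_ne hst]
    simp

theorem pr_comm {A A' : B} (h : A * A' = A' * A) (s t : ZMod 2) :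
    pr s A * pr t A' = pr t A' * pr s A := by
  have h1 : Commute A A' := h
  have h2 : Commute (pr s A) (pr t A') := by
    unfold pr
    exact (((Commute.one_left _).add_left (((Commute.one_right _).add_right
      (h1.smul_right _)).smul_left _)).smul_left _).smul_right _
  exact h2

theorem pr_sum (A : B) : ∑ t : ZMod 2, pr t A = 1 := by
  have h0 : (Finset.univ : Finset (ZMod 2)) = {0, 1} := by decide
  rw [h0, Finset.sum_pair (by decide), pr, pr, ← smul_add]
  have h2 : sgn 0 = 1 := by simp [sgn]
  have h3 : sgn 1 = -1 := by simp [sgn]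
  rw [h2, h3, one_smul, neg_one_smul]
  have h4 : (1 : B) + A + (1 + -A) = (2 : ℂ) • 1 := by
    rw [two_smul]
    abel
  rw [h4, smul_smul]
  norm_num

/-- an operator solution of the magic square -/
structure Magic (a : Fin 3 → Fin 3 → B) : Prop where
  star : ∀ i j, star (a i j) = a i j
  sq : ∀ i j, a i j * a i j = 1
  row_comm : ∀ i j j', a i j * a i j' = a i j' * a i j
  col_comm : ∀ i i' j, a i j * a i' j = a i' j * a i j
  row_prod : ∀ i, a i 0 * a i 1 * a i 2 = 1
  col_prod : ∀ j, a 0 j * a 1 j * a 2 j = if j = 2 then -1 else 1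

/-- the operator of a variable of an equation -/
def opr (a : Fin 3 → Fin 3 → B) (k : Eqn) (s : Fin 3) : B := a (cell k s).1 (cell k s).2

/-- the projection of an assignment -/
def EE (a : Fin 3 → Fin 3 → B) (k : Eqn) (z : Fin 3 → ZMod 2) : B :=
  pr (z 0) (opr a k 0) * pr (z 1) (opr a k 1) * pr (z 2) (opr a k 2)

variable {a : Fin 3 → Fin 3 → B} (ha : Magic a)

include ha

theorem opr_star (k : Eqn) (s : Fin 3) : star (opr a k s) = opr a k s := ha.star _ _

theorem opr_sq (k : Eqn) (s : Fin 3) : opr a k s * opr a k s = 1 := ha.sq _ _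

theorem opr_comm (k : Eqn) (s t : Fin 3) : opr a k s * opr a k t = opr a k t * opr a k s := by
  obtain ⟨b, i⟩ := k
  cases b
  · exact ha.row_comm _ _ _
  · exact ha.col_comm _ _ _

theorem opr_prod (k : Eqn) : opr a k 0 * opr a k 1 * opr a k 2 = sgn (rhs k) • (1 : B) := by
  obtain ⟨b, i⟩ := k
  cases b
  · have h1 : rhs (false, i) = 0 := by simp [rhs]
    rw [h1]
    have h2 : sgn 0 = 1 := by simp [sgn]
    rw [h2, one_smul]
    exact ha.row_prod i
  · have h2 := ha.col_prod i
    have h3 : opr a (true, i) 0 * opr a (true, i) 1 * opr a (true, i) 2 =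
        if i = 2 then -1 else 1 := h2
    rw [h3]
    by_cases hi : i = 2
    · rw [if_pos hi, hi]
      have h1 : rhs (true, 2) = 1 := by decide
      have h2 : sgn 1 = -1 := by simp [sgn]
      rw [h1, h2, neg_one_smul]
    · rw [if_neg hi]
      have h1 : rhs (true, i) = 0 := by simp [rhs, hi]
      have h2 : sgn 0 = 1 := by simp [sgn]
      rw [h1, h2, one_smul]

theorem pr_opr_comm (k : Eqn) (s t : Fin 3) (x y : ZMod 2) :
    Commute (pr x (opr a k s)) (pr y (opr a k t)) := pr_comm (opr_comm ha k s t) x y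

theorem pr_opr_idem (k : Eqn) (s : Fin 3) (x : ZMod 2) :
    pr x (opr a k s) * pr x (opr a k s) = pr x (opr a k s) := by
  rw [pr_mul (opr_sq ha k s), if_pos rfl]

theorem EE_star (k : Eqn) (z : Fin 3 → ZMod 2) : star (EE a k z) = EE a k z := by
  rw [EE, star_mul, star_mul, pr_star (opr_star ha k 0), pr_star (opr_star ha k 1),
    pr_star (opr_star ha k 2)]
  rw [(pr_opr_comm ha k 1 0 _ _).eq, (((pr_opr_comm ha k 2 0 _ _).mul_right
    (pr_opr_comm ha k 2 1 _ _))).eq]

/-- the projection of one variable can be absorbed -/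
theorem pr_EE (k : Eqn) (z : Fin 3 → ZMod 2) (s : Fin 3) :
    pr (z s) (opr a k s) * EE a k z = EE a k z := by
  have c01 := pr_opr_comm ha k 1 0 (z 1) (z 0)
  have c02 := pr_opr_comm ha k 2 0 (z 2) (z 0)
  have c12 := pr_opr_comm ha k 2 1 (z 2) (z 1)
  rw [EE]
  fin_cases s
  · change pr (z 0) (opr a k 0) * _ = _
    rw [← mul_assoc, ← mul_assoc, pr_opr_idem ha]
  · change pr (z 1) (opr a k 1) * _ = _
    rw [← mul_assoc, ← mul_assoc, c01.eq, mul_assoc (pr (z 0) (opr a k 0)), pr_opr_idem ha]
  · change pr (z 2) (opr a k 2) * _ = _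
    rw [← mul_assoc, (c02.mul_right c12).eq, mul_assoc, pr_opr_idem ha]

theorem EE_pr (k : Eqn) (z : Fin 3 → ZMod 2) (s : Fin 3) :
    EE a k z * pr (z s) (opr a k s) = EE a k z := by
  have h1 := congrArg star (pr_EE ha k z s)
  rwa [star_mul, EE_star ha, pr_star (opr_star ha k s)] at h1

theorem EE_idem (k : Eqn) (z : Fin 3 → ZMod 2) : EE a k z * EE a k z = EE a k z := by
  conv_lhs => lhs; rw [EE]
  rw [mul_assoc, pr_EE ha, mul_assoc, pr_EE ha, pr_EE ha]

theorem EE_parity (k : Eqn) (z : Fin 3 → ZMod 2) (h : z 0 + z 1 + z 2 ≠ rhs k) :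
    EE a k z = 0 := by
  have h1 : ∀ s, opr a k s * EE a k z = sgn (z s) • EE a k z := by
    intro s
    rw [← pr_EE ha k z s, ← mul_assoc, mul_pr (opr_sq ha k s), smul_mul_assoc]
  have h2 : opr a k 0 * opr a k 1 * opr a k 2 * EE a k z =
      (sgn (z 0 + z 1 + z 2)) • EE a k z := by
    rw [mul_assoc, h1, mul_smul_comm, mul_assoc, h1, mul_smul_comm, h1, smul_smul, smul_smul,
      sgn_mul, mul_comm (sgn (z 2 + z 1)), sgn_mul, add_comm (z 2), add_assoc]
  rw [opr_prod ha, smul_mul_assoc, one_mul] at h2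
  have h3 : (sgn (z 0 + z 1 + z 2) * sgn (rhs k)) • EE a k z = EE a k z := by
    rw [mul_smul, h2, smul_smul, sgn_sq, one_smul]
  rw [sgn_ne h, neg_one_smul] at h3
  have h4 : (2 : ℂ) • EE a k z = 0 := by
    rw [two_smul]
    nth_rewrite 1 [← h3]
    exact neg_add_cancel _
  exact (smul_eq_zero.1 h4).resolve_left (by norm_num)

theorem EE_sum (k : Eqn) : ∑ z : Fin 3 → ZMod 2, EE a k z = 1 := by
  classical
  let e : (Fin 3 → ZMod 2) ≃ ZMod 2 × ZMod 2 × ZMod 2 :=
    { toFun := fun z => (z 0, z 1, z 2)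
      invFun := fun w => ![w.1, w.2.1, w.2.2]
      left_inv := fun z => by
        funext i
        fin_cases i <;> rfl
      right_inv := fun w => rfl }
  rw [← e.symm.sum_comp, Fintype.sum_prod_type]
  simp only [Fintype.sum_prod_type]
  have h1 : ∀ x y w : ZMod 2, EE a k (e.symm (x, y, w)) =
      pr x (opr a k 0) * pr y (opr a k 1) * pr w (opr a k 2) := fun x y w => rfl
  simp only [h1, ← Finset.mul_sum, pr_sum, mul_one]

theorem EE_orth (k k' : Eqn) (z z' : Fin 3 → ZMod 2) (s t : Fin 3) (h1 : cell k s = cell k' t)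
    (h2 : z s ≠ z' t) : EE a k z * EE a k' z' = 0 := by
  rw [← EE_pr ha k z s, ← pr_EE ha k' z' t, mul_assoc, ← mul_assoc (pr (z s) (opr a k s))]
  have h3 : opr a k s = opr a k' t := by rw [opr, opr, h1]
  rw [h3, pr_mul (opr_sq ha k' t), if_neg h2, zero_mul, mul_zero]

/-- the matrix of projections -/
def pp (a : Fin 3 → Fin 3 → B) (v : Vx rhs) (w : Vx fun _ => 0) : B :=
  if v.1.1 = w.1.1 then EE a v.1.1 (v.1.2 + w.1.2) else 0

theorem magic_matrix : IsGameMatrix (sqGraph rhs) (sqGraph fun _ => 0) (pp a) := by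
  classical
  refine ⟨?_, ?_, ?_, ?_, ?_⟩
  · intro v w
    rw [pp]
    split_ifs
    · exact EE_idem ha _ _
    · rw [mul_zero]
  · intro v w
    rw [pp]
    split_ifs
    · exact EE_star ha _ _
    · rw [star_zero]
  · rintro ⟨⟨k, x⟩, hx⟩
    have h1 : ∑ w : Vx (fun _ => (0 : ZMod 2)), pp a ⟨(k, x), hx⟩ w =
        ∑ w ∈ Finset.univ.filter (fun w : Eqn × (Fin 3 → ZMod 2) => w.2 0 + w.2 1 + w.2 2 = 0),
          (if k = w.1 then EE a k (x + w.2) else 0) :=
      (Finset.sum_subtype (Finset.univ.filter
        (fun w : Eqn × (Fin 3 → ZMod 2) => w.2 0 + w.2 1 + w.2 2 = 0)) (by simp)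
        (fun w => if k = w.1 then EE a k (x + w.2) else 0)).symm
    rw [h1, Finset.sum_filter_of_ne, Fintype.sum_prod_type]
    · rw [Finset.sum_eq_single k]
      · simp only [if_true]
        rw [← EE_sum ha k]
        exact Equiv.sum_comp (Equiv.addLeft x) (fun z => EE a k z)
      · intro l _ hl
        simp [Ne.symm hl]
      · intro h; exact absurd (Finset.mem_univ _) h
    · rintro ⟨l, y⟩ - hne
      by_contra hy
      apply hne
      by_cases hkl : k = l
      · rw [if_pos hkl]
        apply EE_parity ha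
        intro h2
        apply hy
        simp only at hx ⊢
        simp only [Pi.add_apply] at h2
        linear_combination h2 - hx
      · rw [if_neg hkl]
  · rintro ⟨⟨l, y⟩, hy⟩
    have h1 : ∑ v : Vx rhs, pp a v ⟨(l, y), hy⟩ =
        ∑ v ∈ Finset.univ.filter (fun v : Eqn × (Fin 3 → ZMod 2) =>
          v.2 0 + v.2 1 + v.2 2 = rhs v.1),
          (if v.1 = l then EE a v.1 (v.2 + y) else 0) :=
      (Finset.sum_subtype (Finset.univ.filter
        (fun v : Eqn × (Fin 3 → ZMod 2) => v.2 0 + v.2 1 + v.2 2 = rhs v.1)) (by simp)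
        (fun v => if v.1 = l then EE a v.1 (v.2 + y) else 0)).symm
    rw [h1, Finset.sum_filter_of_ne, Fintype.sum_prod_type]
    · rw [Finset.sum_eq_single l]
      · simp only [if_true]
        rw [← EE_sum ha l]
        exact Equiv.sum_comp (Equiv.addRight y) (fun z => EE a l z)
      · intro k _ hk
        simp [hk]
      · intro h; exact absurd (Finset.mem_univ _) h
    · rintro ⟨k, x⟩ - hne
      by_contra hx
      apply hne
      by_cases hkl : k = l
      · rw [if_pos hkl]
        apply EE_parity ha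
        intro h2
        apply hx
        simp only at hy ⊢
        simp only [Pi.add_apply] at h2
        linear_combination h2 - hy
      · rw [if_neg hkl]
  · intro v v' w w' hr
    by_contra hne
    apply hr
    have hk : v.1.1 = w.1.1 := by
      by_contra h
      apply hne
      rw [pp, if_neg h, zero_mul]
    have hk' : v'.1.1 = w'.1.1 := by
      by_contra h
      apply hne
      rw [pp, pp, if_neg h, mul_zero]
    have h1 : ∀ s t, cell v.1.1 s = cell v'.1.1 t →
        v.1.2 s + w.1.2 s = v'.1.2 t + w'.1.2 t := by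
      intro s t hst
      by_contra h2
      apply hne
      rw [pp, pp, if_pos hk, if_pos hk']
      exact EE_orth ha _ _ _ _ s t hst h2
    constructor
    · constructor
      · intro h
        subst h
        apply Subtype.ext
        refine Prod.ext (hk.symm.trans hk') ?_
        funext s
        exact (add_move (h1 s s rfl)).1 rfl
      · intro h
        subst h
        apply Subtype.ext
        refine Prod.ext (hk.trans hk'.symm) ?_
        funext s
        exact (add_move (h1 s s (by rw [hk, hk']))).2 rfl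
    · constructor
      · rintro ⟨s, t, h2, h3⟩
        refine ⟨s, t, ?_, fun h4 => h3 ((add_move (h1 s t h2)).2 h4)⟩
        rw [← hk, ← hk']
        exact h2
      · rintro ⟨s, t, h2, h3⟩
        rw [← hk, ← hk'] at h2
        exact ⟨s, t, h2, fun h4 => h3 ((add_move (h1 s t h2)).1 h4)⟩

end Pool.Agent.L5helper3.IsoGame
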