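import Mathlib

/-!
# Universal C*-algebras given by bounded generators and relations

The proof of the existence follows the starting module `Pool.Agent.Y512.FGC.Exist` (full group
C*-algebras): the closed subalgebra generated by the generators in a product of almost optimal
representations.
-/

set_option autoImplicit false
set_option linter.all false

noncomputable section

namespace Pool.Agent.L5helper3.IsoGame

open scoped ENNReal
open FreeAlgebra (lift)

/-- a representation of the generators `ι` with adjoints given by `σ` and relations `rel` -/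
structure Rep {ι : Type} (σ : ι → ι) (rel : Set (FreeAlgebra ℂ ι)) (B : Type) [CStarAlgebra B]
    (q : ι → B) : Prop where
  star : ∀ i, star (q i) = q (σ i)
  rel : ∀ x ∈ rel, lift ℂ q x = 0

variable {ι : Type} {σ : ι → ι} {rel : Set (FreeAlgebra ℂ ι)}

lemma exists_adj (x : FreeAlgebra ℂ ι) : ∃ y : FreeAlgebra ℂ ι,
    ∀ (B : Type) [CStarAlgebra B] (q : ι → B), Rep σ rel B q → star (lift ℂ q x) = lift ℂ q y := by
  induction x using FreeAlgebra.induction with
  | grade0 r =>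
    refine ⟨algebraMap ℂ _ (star r), fun B _ q hq => ?_⟩
    rw [AlgHom.commutes, AlgHom.commutes, ← algebraMap_star_comm]
  | grade1 i =>
    refine ⟨FreeAlgebra.ι ℂ (σ i), fun B _ q hq => ?_⟩
    rw [FreeAlgebra.lift_ι_apply, FreeAlgebra.lift_ι_apply, hq.star]
  | mul a b ha hb =>
    obtain ⟨a', ha'⟩ := ha
    obtain ⟨b', hb'⟩ := hb
    refine ⟨b' * a', fun B _ q hq => ?_⟩
    rw [map_mul, map_mul, star_mul, ha' B q hq, hb' B q hq]
  | add a b ha hb =>
    obtain ⟨a', ha'⟩ := ha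
    obtain ⟨b', hb'⟩ := hb
    refine ⟨a' + b', fun B _ q hq => ?_⟩
    rw [map_add, map_add, star_add, ha' B q hq, hb' B q hq]

section generic

variable {P : Type} [CStarAlgebra P] {V : ι → P} (hV : Rep σ rel P V)

/-- the algebra generated by the representation `V` -/
def galg : StarSubalgebra ℂ P where
  toSubalgebra := (lift ℂ V).range
  star_mem' := by
    rintro _ ⟨x, rfl⟩
    obtain ⟨y, hy⟩ := exists_adj (σ := σ) (rel := rel) x
    exact ⟨y, (hy P V hV).symm⟩

/-- its closure -/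
def GS : StarSubalgebra ℂ P := (galg hV).topologicalClosure

instance : IsClosed (GS hV : Set P) := StarSubalgebra.isClosed_topologicalClosure _

/-- the closure as a type -/
def GT : Type := GS hV

instance : CStarAlgebra (GT hV) := by
  exact (inferInstance : CStarAlgebra (GS hV))

/-- the inclusion -/
def inclG : GT hV →⋆ₐ[ℂ] P := (GS hV).subtype

lemma inclG_inj : Function.Injective (inclG hV) := Subtype.val_injective

lemma inclG_norm (x : GT hV) : ‖inclG hV x‖ = ‖x‖ := rfl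

lemma V_mem (i : ι) : V i ∈ GS hV := by
  apply StarSubalgebra.le_topologicalClosure
  refine ⟨FreeAlgebra.ι ℂ i, ?_⟩
  change lift ℂ V (FreeAlgebra.ι ℂ i) = _
  rw [FreeAlgebra.lift_ι_apply]

/-- the generators in the closure -/
def uG (i : ι) : GT hV := (⟨V i, V_mem hV i⟩ : GS hV)

lemma incl_uG (i : ι) : inclG hV (uG hV i) = V i := rfl

lemma incl_lift (x : FreeAlgebra ℂ ι) : inclG hV (lift ℂ (uG hV) x) = lift ℂ V x := by
  induction x using FreeAlgebra.induction with
  | grade0 r =>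
    rw [AlgHom.commutes, AlgHom.commutes]
    exact (inclG hV).toAlgHom.commutes r
  | grade1 i => rw [FreeAlgebra.lift_ι_apply, FreeAlgebra.lift_ι_apply, incl_uG]
  | mul a b ha hb => rw [map_mul, map_mul, map_mul, ha, hb]
  | add a b ha hb => rw [map_add, map_add, map_add, ha, hb]

lemma rep_uG : Rep σ rel (GT hV) (uG hV) where
  star i := by
    apply inclG_inj hV
    rw [map_star, incl_uG, incl_uG, hV.star]
  rel x hx := by
    apply inclG_inj hV
    rw [incl_lift, hV.rel x hx, map_zero]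

lemma dense_uG : DenseRange (lift ℂ (uG hV)) := by
  intro a
  rw [Metric.mem_closure_iff]
  intro δ hδ
  have ha : (inclG hV a) ∈ closure ((galg hV : StarSubalgebra ℂ P) : Set P) := by
    rw [← StarSubalgebra.topologicalClosure_coe]
    exact a.2
  obtain ⟨_, ⟨x, rfl⟩, hx⟩ := Metric.mem_closure_iff.mp ha δ hδ
  refine ⟨_, ⟨x, rfl⟩, ?_⟩
  rw [dist_eq_norm, ← inclG_norm, map_sub, incl_lift, ← dist_eq_norm]
  exact hx

lemma hom_cont {A B : Type} [CStarAlgebra A] [CStarAlgebra B] (f : A →⋆ₐ[ℂ] B) : Continuous f :=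
  AddMonoidHomClass.continuous_of_bound f 1
    (by intro x; simpa only [one_mul] using NonUnitalStarAlgHom.norm_apply_le f x)

/-- a representation with the largest norm generates the universal C*-algebra -/
theorem full_of_norm (hn : ∀ (B : Type) [CStarAlgebra B] (v : ι → B), Rep σ rel B v →
    ∀ x : FreeAlgebra ℂ ι, ‖lift ℂ v x‖ ≤ ‖lift ℂ V x‖) (B : Type) [CStarAlgebra B] (v : ι → B)
    (hv : Rep σ rel B v) : ∃! φ : GT hV →⋆ₐ[ℂ] B, ∀ i, φ (uG hV i) = v i := by
  have hn' : ∀ x : FreeAlgebra ℂ ι, ‖(lift ℂ v).toLinearMap x‖ ≤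
      1 * ‖(lift ℂ (uG hV)).toLinearMap x‖ := by
    intro x
    rw [one_mul]
    have := hn B v hv x
    rw [← incl_lift hV, inclG_norm] at this
    exact this
  let φ : GT hV →L[ℂ] B :=
    (lift ℂ v).toLinearMap.extendOfNorm (lift ℂ (uG hV)).toLinearMap
  have hφ : ∀ x, φ (lift ℂ (uG hV) x) = lift ℂ v x := by
    intro x
    exact LinearMap.extendOfNorm_eq (f := (lift ℂ v).toLinearMap)
      (e := (lift ℂ (uG hV)).toLinearMap) (dense_uG hV) ⟨1, hn'⟩ x
  have hmul : ∀ a b, φ (a * b) = φ a * φ b := by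
    intro a b
    refine DenseRange.induction_on₂ (p := fun a b => φ (a * b) = φ a * φ b) (dense_uG hV) ?_ ?_ a b
    · exact isClosed_eq (by fun_prop) (by fun_prop)
    · intro x y
      rw [← map_mul, hφ, hφ, hφ, map_mul]
  have hstar : ∀ a, φ (star a) = star (φ a) := by
    intro a
    refine DenseRange.induction_on (p := fun a => φ (star a) = star (φ a)) (dense_uG hV) a ?_ ?_
    · exact isClosed_eq (by fun_prop) (by fun_prop)
    · intro x
      obtain ⟨y, hy⟩ := exists_adj (σ := σ) (rel := rel) x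
      rw [hy _ _ (rep_uG hV), hφ, hφ, hy _ _ hv]
  have hone : φ 1 = 1 := by
    have h1 := hφ 1
    rw [map_one (lift ℂ (uG hV)), map_one (lift ℂ v)] at h1
    exact h1
  have hcom : ∀ r : ℂ, φ (algebraMap ℂ (GT hV) r) = algebraMap ℂ B r := by
    intro r
    rw [Algebra.algebraMap_eq_smul_one, Algebra.algebraMap_eq_smul_one, map_smul, hone]
  refine ⟨{ toFun := φ
            map_one' := hone
            map_mul' := hmul
            map_zero' := map_zero φ
            map_add' := map_add φ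
            commutes' := hcom
            map_star' := hstar }, ?_, ?_⟩
  · intro i
    have := hφ (FreeAlgebra.ι ℂ i)
    rw [FreeAlgebra.lift_ι_apply, FreeAlgebra.lift_ι_apply] at this
    exact this
  · intro ψ hψ
    have h1 : ∀ x, ψ (lift ℂ (uG hV) x) = lift ℂ v x := by
      intro x
      induction x using FreeAlgebra.induction with
      | grade0 r =>
        rw [AlgHom.commutes, AlgHom.commutes]
        exact ψ.toAlgHom.commutes r
      | grade1 i => rw [FreeAlgebra.lift_ι_apply, FreeAlgebra.lift_ι_apply, hψ]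
      | mul a b ha hb => rw [map_mul, map_mul, map_mul, ha, hb]
      | add a b ha hb => rw [map_add, map_add, map_add, ha, hb]
    apply StarAlgHom.ext
    intro a
    refine DenseRange.induction_on (p := fun a => ψ a = φ a) (dense_uG hV) a ?_ ?_
    · exact isClosed_eq (hom_cont ψ) (by fun_prop)
    · intro x
      rw [h1, hφ]

end generic

section exist

variable (σ rel) in
/-- a representation in a nonzero C*-algebra -/
structure RepD : Type 1 where
  B : Type
  inst : CStarAlgebra B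
  nt : Nontrivial B
  q : ι → B
  hq : Rep σ rel B q

instance (r : RepD σ rel) : CStarAlgebra r.B := r.inst
instance (r : RepD σ rel) : Nontrivial r.B := r.nt

lemma lift_bdd {C₀ : ℝ} (hC₀ : ∀ (B : Type) [CStarAlgebra B] (v : ι → B), Rep σ rel B v →
    ∀ i, ‖v i‖ ≤ C₀) (x : FreeAlgebra ℂ ι) : ∃ C : ℝ, ∀ (B : Type) [CStarAlgebra B]
    (v : ι → B), Rep σ rel B v → ‖lift ℂ v x‖ ≤ C := by
  induction x using FreeAlgebra.induction with
  | grade0 r =>
    refine ⟨‖r‖, fun B _ v hv => ?_⟩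
    rw [AlgHom.commutes, Algebra.algebraMap_eq_smul_one, norm_smul]
    have h1 : ‖(1 : B)‖ ≤ 1 := by
      rcases subsingleton_or_nontrivial B with h | h
      · rw [Subsingleton.elim (1 : B) 0, norm_zero]; exact zero_le_one
      · rw [CStarRing.norm_one]
    have := norm_nonneg r
    nlinarith
  | grade1 i =>
    refine ⟨C₀, fun B _ v hv => ?_⟩
    rw [FreeAlgebra.lift_ι_apply]
    exact hC₀ B v hv i
  | mul a b ha hb =>
    obtain ⟨C, hC⟩ := ha
    obtain ⟨D, hD⟩ := hb
    refine ⟨C * D, fun B _ v hv => ?_⟩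
    rw [map_mul]
    refine (norm_mul_le _ _).trans (mul_le_mul (hC B v hv) (hD B v hv) (norm_nonneg _) ?_)
    exact (norm_nonneg _).trans (hC B v hv)
  | add a b ha hb =>
    obtain ⟨C, hC⟩ := ha
    obtain ⟨D, hD⟩ := hb
    refine ⟨C + D, fun B _ v hv => ?_⟩
    rw [map_add]
    exact (norm_add_le _ _).trans (add_le_add (hC B v hv) (hD B v hv))

lemma exists_near [Nonempty (RepD σ rel)] {C₀ : ℝ} (hC₀ : ∀ (B : Type) [CStarAlgebra B] (v : ι → B),
    Rep σ rel B v → ∀ i, ‖v i‖ ≤ C₀) (x : FreeAlgebra ℂ ι) (n : ℕ) :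
    ∃ r : RepD σ rel, ∀ (B : Type) [CStarAlgebra B]
    (v : ι → B), Rep σ rel B v → ‖lift ℂ v x‖ ≤ ‖lift ℂ r.q x‖ + 1 / (n + 1) := by
  obtain ⟨C, hC⟩ := lift_bdd hC₀ x
  have hbdd : BddAbove (Set.range fun r : RepD σ rel => ‖lift ℂ r.q x‖) := by
    refine ⟨C, ?_⟩
    rintro _ ⟨r, rfl⟩
    exact hC r.B r.q r.hq
  have hpos : (0 : ℝ) < 1 / (n + 1) := by positivity
  obtain ⟨r, hr⟩ := exists_lt_of_lt_ciSup (f := fun r : RepD σ rel => ‖lift ℂ r.q x‖)
    (show (⨆ r : RepD σ rel, ‖lift ℂ r.q x‖) - 1 / (n + 1) < ⨆ r : RepD σ rel, ‖lift ℂ r.q x‖ by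
      linarith)
  refine ⟨r, fun B _ v hv => ?_⟩
  rcases subsingleton_or_nontrivial B with h | h
  · rw [Subsingleton.elim (lift ℂ v x) 0, norm_zero]
    have := norm_nonneg (lift ℂ r.q x)
    linarith
  · have h1 : ‖lift ℂ v x‖ ≤ ⨆ r : RepD σ rel, ‖lift ℂ r.q x‖ :=
      le_ciSup hbdd (⟨B, inferInstance, h, v, hv⟩ : RepD σ rel)
    linarith

variable [Nonempty (RepD σ rel)] {C₀ : ℝ} (hC₀ : ∀ (B : Type) [CStarAlgebra B] (v : ι → B),
    Rep σ rel B v → ∀ i, ‖v i‖ ≤ C₀)

/-- an almost optimal representation -/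
def nearR (k : FreeAlgebra ℂ ι × ℕ) : RepD σ rel := (exists_near hC₀ k.1 k.2).choose

lemma nearR_spec (k : FreeAlgebra ℂ ι × ℕ) (B : Type) [CStarAlgebra B] (v : ι → B)
    (hv : Rep σ rel B v) :
    ‖lift ℂ v k.1‖ ≤ ‖lift ℂ (nearR hC₀ k).q k.1‖ + 1 / (k.2 + 1) :=
  (exists_near hC₀ k.1 k.2).choose_spec B v hv

/-- the product of the C*-algebras -/
abbrev PP : Type := lp (fun k : FreeAlgebra ℂ ι × ℕ => (nearR hC₀ k).B) ∞

noncomputable instance : CStarAlgebra (PP hC₀) where

/-- the product representation -/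
def VV (i : ι) : PP hC₀ :=
  ⟨fun k => (nearR hC₀ k).q i, memℓp_infty ⟨C₀, by
      rintro _ ⟨k, rfl⟩
      exact hC₀ _ _ (nearR hC₀ k).hq i⟩⟩

lemma lift_VV (x : FreeAlgebra ℂ ι) (k : FreeAlgebra ℂ ι × ℕ) :
    (lift ℂ (VV hC₀) x : PP hC₀) k = lift ℂ (nearR hC₀ k).q x := by
  induction x using FreeAlgebra.induction with
  | grade0 r => rw [AlgHom.commutes, AlgHom.commutes]; rfl
  | grade1 i => rw [FreeAlgebra.lift_ι_apply, FreeAlgebra.lift_ι_apply]; rfl
  | mul a b ha hb => rw [map_mul, map_mul, ← ha, ← hb]; rfl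
  | add a b ha hb => rw [map_add, map_add, ← ha, ← hb]; rfl

lemma rep_VV : Rep σ rel (PP hC₀) (VV hC₀) where
  star i := by
    apply lp.ext
    funext k
    exact (nearR hC₀ k).hq.star i
  rel x hx := by
    apply lp.ext
    funext k
    rw [lift_VV, (nearR hC₀ k).hq.rel x hx]
    rfl

theorem norm_VV (B : Type) [CStarAlgebra B] (v : ι → B) (hv : Rep σ rel B v)
    (x : FreeAlgebra ℂ ι) : ‖lift ℂ v x‖ ≤ ‖(lift ℂ (VV hC₀) x : PP hC₀)‖ := by
  refine le_of_forall_pos_le_add fun ε hε => ?_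
  obtain ⟨n, hn⟩ := exists_nat_one_div_lt hε
  have h1 := nearR_spec hC₀ (x, n) B v hv
  have h2 : ‖(lift ℂ (VV hC₀) x : PP hC₀) (x, n)‖ ≤ ‖(lift ℂ (VV hC₀) x : PP hC₀)‖ :=
    lp.norm_apply_le_norm (by simp) _ _
  rw [lift_VV] at h2
  simp only at h1
  linarith

end exist

/-- **Existence of universal C*-algebras.** -/
theorem exists_universal (C₀ : ℝ) (hC₀ : ∀ (B : Type) [CStarAlgebra B] (v : ι → B),
    Rep σ rel B v → ∀ i, ‖v i‖ ≤ C₀) (B₀ : Type) [CStarAlgebra B₀] [Nontrivial B₀] (v₀ : ι → B₀)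
    (hv₀ : Rep σ rel B₀ v₀) :
    ∃ (A : Type) (_ : CStarAlgebra A) (p : ι → A), Rep σ rel A p ∧
      ∀ (B : Type) [CStarAlgebra B] (q : ι → B), Rep σ rel B q →
        ∃! φ : A →⋆ₐ[ℂ] B, ∀ i, φ (p i) = q i := by
  haveI : Nonempty (RepD σ rel) := ⟨⟨B₀, inferInstance, inferInstance, v₀, hv₀⟩⟩
  exact ⟨GT (rep_VV hC₀), inferInstance, uG _, rep_uG _, fun B _ q hq =>
    full_of_norm _ (fun B _ v hv x => norm_VV hC₀ B v hv x) B q hq⟩

end Pool.Agent.L5helper3.IsoGame
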